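import Mathlib

set_option autoImplicit false

/-!
# Rough numbers have few prime factors
-/

namespace Pool.Agent.L5helper4.RG

open Filter

/-- a number at most `x ^ B` all of whose prime factors exceed `⌊x ^ (1 / r)⌋` has at most `B r` prime factors -/
theorem few {x n B r : ℕ} (hx : 2 ≤ x) (hr : 1 ≤ r) (hn : 1 ≤ n) (hnB : n ≤ x ^ B)
    (h : ∀ p : ℕ, p.Prime → p ∣ n → ⌊(x : ℝ) ^ (1 / (r : ℝ))⌋₊ < p) :
    n.primeFactorsList.length ≤ B * r := by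
  have hx1 : (1 : ℝ) < x := by exact_mod_cast (by omega : 1 < x)
  have hx0 : (0 : ℝ) < x := by linarith
  have h1 : ∀ p ∈ n.primeFactorsList, ⌊(x : ℝ) ^ (1 / (r : ℝ))⌋₊ + 1 ≤ p := fun p hp =>
    h p (Nat.prime_of_mem_primeFactorsList hp) (Nat.dvd_of_mem_primeFactorsList hp)
  have h2 : (⌊(x : ℝ) ^ (1 / (r : ℝ))⌋₊ + 1) ^ n.primeFactorsList.length ≤ n := by
    calc (⌊(x : ℝ) ^ (1 / (r : ℝ))⌋₊ + 1) ^ n.primeFactorsList.length ≤ n.primeFactorsList.prod :=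
          List.pow_card_le_prod _ _ h1
      _ = n := Nat.prod_primeFactorsList (by omega)
  have h3 : (x : ℝ) ^ (1 / (r : ℝ)) ≤ ((⌊(x : ℝ) ^ (1 / (r : ℝ))⌋₊ + 1 : ℕ) : ℝ) := by
    push_cast
    exact (Nat.lt_floor_add_one _).le
  have h4 : (x : ℝ) ^ (1 / (r : ℝ) * n.primeFactorsList.length) ≤ (x : ℝ) ^ (B : ℝ) := by
    rw [Real.rpow_mul hx0.le, Real.rpow_natCast, Real.rpow_natCast]
    calc ((x : ℝ) ^ (1 / (r : ℝ))) ^ n.primeFactorsList.length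
        ≤ ((⌊(x : ℝ) ^ (1 / (r : ℝ))⌋₊ + 1 : ℕ) : ℝ) ^ n.primeFactorsList.length :=
          pow_le_pow_left₀ (by positivity) h3 _
      _ ≤ ((x ^ B : ℕ) : ℝ) := by exact_mod_cast h2.trans hnB
      _ = (x : ℝ) ^ B := by push_cast; rfl
  have h5 := (Real.rpow_le_rpow_left_iff hx1).1 h4
  have hr0 : (0 : ℝ) < r := by exact_mod_cast hr
  have h6 : (n.primeFactorsList.length : ℝ) ≤ B * r := by
    rw [one_div, inv_mul_eq_div, div_le_iff₀ hr0] at h5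
    exact h5
  exact_mod_cast h6

end Pool.Agent.L5helper4.RG
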