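import Pool.Agent.R490.Single

set_option autoImplicit false

/-!
# The polynomial `X`: rough numbers
-/

namespace Pool.Agent.L5helper4.RG

open Polynomial Finset Filter
open Pool.Agent.R490.Sg

theorem good_X {X : ℕ} (hX : 1 ≤ X) : Good 1 ((X : ℤ) ^ 1) (Polynomial.X : ℤ[X]) (fun m => m) where
  ev := fun x => by simp
  irr := Polynomial.irreducible_X
  deg := by simp
  degD := by simp
  hgt := fun n => by
    rw [Polynomial.coeff_X, pow_one]
    have : (1 : ℤ) ≤ X := by exact_mod_cast hX
    split_ifs
    · simpa using this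
    · simp
  adm := fun p hp => ⟨1, by
    intro h
    have h1 := Int.le_of_dvd (by norm_num) h
    have := hp.two_le
    push_cast at h1
    omega⟩

/-- the product of `1 - 1 / p` over the primes `p ≤ z` -/
noncomputable def V (z : ℕ) : ℝ := ∏ p ∈ (Finset.range (z + 1)).filter Nat.Prime, (1 - 1 / (p : ℝ))

theorem De_X (z : ℕ) : De (fun m => m) z = V z := by
  classical
  unfold De V
  apply Finset.prod_congr rfl
  intro p hp
  have hpp := (mem_filter.1 hp).2
  congr 2
  have : (Finset.range p).filter (fun m : ℕ => (p : ℤ) ∣ (m : ℤ)) = {0} := by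
    ext m
    rw [mem_filter, mem_range, mem_singleton]
    constructor
    · rintro ⟨h1, h2⟩
      rcases Nat.eq_zero_or_pos m with h | h
      · exact h
      · have := Nat.le_of_dvd h (by exact_mod_cast h2)
        omega
    · rintro rfl
      exact ⟨hpp.pos, by simp⟩
  rw [show ((Finset.range p).filter (fun m : ℕ => (p : ℤ) ∣ (m : ℤ))).card = 1 by rw [this]; rfl]
  simp

theorem Ro_X (z m : ℕ) : Ro (fun m => m) z m ↔ ∀ p : ℕ, p.Prime → p ≤ z → ¬ p ∣ m := by
  unfold Ro
  constructor
  · intro h p hp hz hd
    exact h p hp hz (Int.natCast_dvd_natCast.2 hd)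
  · intro h p hp hz hd
    exact h p hp hz (Int.natCast_dvd_natCast.1 hd)

end Pool.Agent.L5helper4.RG
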